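import Pool.Agent.L5helper98.CG.Defs

set_option autoImplicit false

/-! # The singular insertion has small mass near the end points (CG-INS) -/

namespace Pool.Agent.L5helper70.CG

open MeasureTheory ProbabilityTheory Filter Topology Set
open Pool.Agent.L5helper98.CG
open scoped ENNReal

/-- subadditivity of a concave power, countable sums -/
theorem rpow_tsum_le {κ : ℝ} (h0 : 0 < κ) (h1 : κ ≤ 1) (f : ℕ → ℝ≥0∞) :
    (∑' j, f j) ^ κ ≤ ∑' j, f j ^ κ := by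
  have h2 : ∀ s : Finset ℕ, (∑ j ∈ s, f j) ^ κ ≤ ∑ j ∈ s, f j ^ κ := by
    intro s
    classical
    induction s using Finset.induction_on with
    | empty => simp [h0]
    | insert a s ha ih =>
      rw [Finset.sum_insert ha, Finset.sum_insert ha]
      exact (ENNReal.rpow_add_le_add_rpow _ _ h0.le h1).trans (by gcongr)
  have h3 : Tendsto (fun s : Finset ℕ => (∑ j ∈ s, f j) ^ κ) atTop (𝓝 ((∑' j, f j) ^ κ)) :=
    ((ENNReal.continuous_rpow_const (y := κ)).tendsto _).comp ENNReal.summable.hasSum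
  exact le_of_tendsto' h3 fun s => (h2 s).trans (ENNReal.sum_le_tsum s)

/-- the choice of the parameters -/
theorem params (μ q : ℝ) (hμ : 0 < μ) (hq : -1 / μ - 1 / 2 < q) :
    ∃ η κ a b : ℝ, 0 < η ∧ η < μ ∧ 0 < κ ∧ κ < 1 ∧ max 0 (-q) * (μ + η) ≤ a ∧ 0 ≤ a ∧
      b = (1 - κ) * (μ - η) / 2 ∧ b ≤ a ∧ a < 1 + b := by
  obtain ⟨s, hs⟩ : ∃ s, s = max 0 (-q) := ⟨_, rfl⟩
  have hs0 : 0 ≤ s := by rw [hs]; exact le_max_left _ _
  have h1 : s < 1 / μ + 1 / 2 := by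
    rw [hs]
    refine max_lt (by positivity) ?_
    have : -1 / μ = -(1 / μ) := by ring
    linarith
  have h2 : s * μ < 1 + μ / 2 := by
    have := mul_lt_mul_of_pos_right h1 hμ
    have e : (1 / μ + 1 / 2) * μ = 1 + μ / 2 := by field_simp
    linarith
  obtain ⟨g, hg⟩ : ∃ g, g = 1 + μ / 2 - s * μ := ⟨_, rfl⟩
  have hg0 : 0 < g := by linarith
  obtain ⟨η, hη⟩ : ∃ η, η = min (μ / 2) (g / (4 * (s + 1))) := ⟨_, rfl⟩
  have hη0 : 0 < η := by rw [hη]; exact lt_min (by positivity) (by positivity)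
  have hη1 : η < μ := by
    rw [hη]; exact (min_le_left _ _).trans_lt (by linarith)
  have hη2 : η * (s + 1) ≤ g / 4 := by
    have : η ≤ g / (4 * (s + 1)) := by rw [hη]; exact min_le_right _ _
    rw [le_div_iff₀ (by positivity)] at this
    linarith
  obtain ⟨κ, hκ⟩ : ∃ κ, κ = min (1 / 2) (g / (2 * μ)) := ⟨_, rfl⟩
  have hκ0 : 0 < κ := by rw [hκ]; exact lt_min (by norm_num) (by positivity)
  have hκ1 : κ < 1 := by rw [hκ]; exact (min_le_left _ _).trans_lt (by norm_num)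
  have hκ2 : κ * μ ≤ g / 2 := by
    have : κ ≤ g / (2 * μ) := by rw [hκ]; exact min_le_right _ _
    rw [le_div_iff₀ (by positivity)] at this
    linarith
  obtain ⟨b, hb⟩ : ∃ b, b = (1 - κ) * (μ - η) / 2 := ⟨_, rfl⟩
  have hb0 : 0 ≤ b := by
    rw [hb]
    have : 0 ≤ (1 - κ) * (μ - η) := mul_nonneg (by linarith) (by linarith)
    linarith
  refine ⟨η, κ, max (s * (μ + η)) b, b, hη0, hη1, hκ0, hκ1, by rw [← hs]; exact le_max_left _ _,
    hb0.trans (le_max_right _ _), hb, le_max_right _ _, max_lt ?_ (by linarith)⟩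
  have h3 : s * η ≤ g / 4 - η := by nlinarith
  have h4 : (1 - κ) * (μ - η) / 2 = μ / 2 - η / 2 - κ * μ / 2 + κ * η / 2 := by ring
  have h5 : 0 ≤ κ * η := by positivity
  rw [hb, h4]
  nlinarith

/-- bound of the insertion -/
theorem weight (c : Bool) (r : ℝ → ℝ) (μ η K ε₀ q a : ℝ) (hη : η < μ) (hK : 0 ≤ K)
    (hε₀ : ε₀ < 1 / 2) (ha : max 0 (-q) * (μ + η) ≤ a)
    (hk : ∀ ε : ℝ, 0 < ε → ε ≤ ε₀ → ∀ d : ℝ, 0 ≤ d → d < 1 → (c = true → d ≤ 1 / 2) →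
      (μ - η) * Real.log (1 / max d ε) - K ≤ cv r μ ε d ∧
      cv r μ ε d ≤ (μ + η) * Real.log (1 / max d ε) + K)
    (ε : ℝ) (h0 : 0 < ε) (h1 : ε ≤ ε₀) (d : ℝ) (hd0 : 0 ≤ d) (hd1 : d < 1)
    (hdc : c = true → d ≤ 1 / 2) :
    Real.exp (-(q * cv r μ ε d)) ≤ Real.exp (|q| * K) * max d ε ^ (-a) := by
  obtain ⟨g1, g2⟩ := hk ε h0 h1 d hd0 hd1 hdc
  obtain ⟨D, hD⟩ : ∃ D, D = max d ε := ⟨_, rfl⟩
  rw [← hD] at g1 g2 ⊢
  have hD0 : 0 < D := by rw [hD]; exact lt_of_lt_of_le h0 (le_max_right _ _)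
  have hD1 : D ≤ 1 := by rw [hD]; exact max_le hd1.le (by linarith)
  obtain ⟨L, hL⟩ : ∃ L, L = Real.log (1 / D) := ⟨_, rfl⟩
  have hL0 : 0 ≤ L := by
    rw [hL]
    exact Real.log_nonneg (by rw [le_div_iff₀ hD0]; linarith)
  have hDa : D ^ (-a) = Real.exp (a * L) := by
    rw [Real.rpow_def_of_pos hD0, hL, one_div, Real.log_inv]
    congr 1
    ring
  rw [← hL] at g1 g2
  rw [hDa, ← Real.exp_add]
  refine Real.exp_le_exp.2 ?_
  have h3 : max 0 (-q) * (μ + η) * L ≤ a * L := mul_le_mul_of_nonneg_right ha hL0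
  rcases le_or_gt 0 q with hq | hq
  · rw [max_eq_left (by linarith)] at h3
    rw [abs_of_nonneg hq]
    have h4 : 0 ≤ (μ - η) * L := mul_nonneg (by linarith) hL0
    have h5 : q * (-K) ≤ q * cv r μ ε d := mul_le_mul_of_nonneg_left (by linarith) hq
    nlinarith
  · rw [max_eq_right (by linarith)] at h3
    rw [abs_of_neg hq]
    have h5 : -q * cv r μ ε d ≤ -q * ((μ + η) * L + K) :=
      mul_le_mul_of_nonneg_left g2 (by linarith)
    nlinarith

/-- bound of the insertion on a piece -/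
theorem wb (c : Bool) (r : ℝ → ℝ) (μ η K ε₀ q a : ℝ) (hη : η < μ) (hK : 0 ≤ K)
    (hε₀ : ε₀ < 1 / 2) (ha : max 0 (-q) * (μ + η) ≤ a) (ha0 : 0 ≤ a)
    (hk : ∀ ε : ℝ, 0 < ε → ε ≤ ε₀ → ∀ d : ℝ, 0 ≤ d → d < 1 → (c = true → d ≤ 1 / 2) →
      (μ - η) * Real.log (1 / max d ε) - K ≤ cv r μ ε d ∧
      cv r μ ε d ≤ (μ + η) * Real.log (1 / max d ε) + K)
    (ε : ℝ) (h0 : 0 < ε) (h1 : ε ≤ ε₀) (l : ℝ) (hl : 0 < l) (hl2 : l ≤ 1 / 2) (u : ℝ)
    (hu0 : 0 ≤ u) (hu1 : u < 1) (hu : (l ≤ u ∧ u ≤ 1 / 2) ∨ (1 / 2 ≤ u ∧ l ≤ 1 - u)) :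
    Real.exp (-(q * cv r μ ε (dst c u 0))) ≤ Real.exp (|q| * K) * 2 ^ a * max l ε ^ (-a) := by
  have hm0 : 0 < max l ε := lt_of_lt_of_le hl (le_max_left _ _)
  have hm1 : max l ε ≤ 1 := max_le (by linarith) (by linarith)
  have h2a : (1 : ℝ) ≤ 2 ^ a := Real.one_le_rpow (by norm_num) ha0
  have hma : 1 ≤ max l ε ^ (-a) := Real.one_le_rpow_of_pos_of_le_one_of_nonpos hm0 hm1 (by linarith)
  have key : ∀ d : ℝ, l ≤ d → d < 1 → (c = true → d ≤ 1 / 2) →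
      Real.exp (-(q * cv r μ ε d)) ≤ Real.exp (|q| * K) * 2 ^ a * max l ε ^ (-a) := by
    intro d hd hd1 hdc
    refine (weight c r μ η K ε₀ q a hη hK hε₀ ha hk ε h0 h1 d (hl.le.trans hd) hd1 hdc).trans ?_
    have h3 : max d ε ^ (-a) ≤ max l ε ^ (-a) :=
      Real.rpow_le_rpow_of_nonpos hm0 (max_le_max hd le_rfl) (by linarith)
    have h4 : max l ε ^ (-a) ≤ 2 ^ a * max l ε ^ (-a) :=
      le_mul_of_one_le_left (by positivity) h2a
    rw [mul_assoc]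
    exact mul_le_mul_of_nonneg_left (h3.trans h4) (Real.exp_pos _).le
  rcases hu with ⟨g1, g2⟩ | ⟨g1, g2⟩
  · have hd : dst c u 0 = u := by
      unfold dst
      rw [sub_zero, abs_of_nonneg hu0]
      split_ifs
      · exact min_eq_left (by linarith)
      · rfl
    rw [hd]
    exact key u g1 hu1 fun _ => g2
  · cases c
    · have hd : dst false u 0 = u := by
        unfold dst
        rw [sub_zero, abs_of_nonneg hu0]
        simp
      rw [hd]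
      refine (weight false r μ η K ε₀ q a hη hK hε₀ ha hk ε h0 h1 u hu0 hu1 (by simp)).trans ?_
      have h3 : max u ε ^ (-a) ≤ (1 / 2 : ℝ) ^ (-a) :=
        Real.rpow_le_rpow_of_nonpos (by norm_num) (g1.trans (le_max_left _ _)) (by linarith)
      have h4 : (1 / 2 : ℝ) ^ (-a) = 2 ^ a := by
        rw [one_div, Real.inv_rpow (by norm_num), Real.rpow_neg (by norm_num), inv_inv]
      rw [h4] at h3
      have h5 : (2 : ℝ) ^ a ≤ 2 ^ a * max l ε ^ (-a) := le_mul_of_one_le_right (by positivity) hma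
      rw [mul_assoc]
      exact mul_le_mul_of_nonneg_left (h3.trans h5) (Real.exp_pos _).le
    · have hd : dst true u 0 = 1 - u := by
        unfold dst
        rw [sub_zero, abs_of_nonneg hu0, if_pos rfl]
        exact min_eq_right (by linarith)
      rw [hd]
      exact key (1 - u) g2 (by linarith) fun _ => by linarith

theorem mass_nonneg {Ω : Type} (w : ℝ → ℝ) (hw : ∀ u, 0 ≤ w u) (ω : ℝ → Ω → ℝ) (x : Ω) :
    0 ≤ mass w ω x :=
  integral_nonneg fun u => mul_nonneg (hw u) (Real.exp_pos _).le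

/-- a piece -/
theorem piece {Ω : Type} (ω : ℝ → Ω → ℝ) (x : Ω)
    (hx : IntegrableOn (fun u => Real.exp (ω u x)) (Ico 0 1)) (a b : ℝ) (ha : 0 ≤ a)
    (hb : b ≤ 1) (w : ℝ → ℝ) (M : ℝ) (hw : ∀ u ∈ Ico a b, w u ≤ M) (hM : 0 ≤ M) :
    ∫⁻ u in Ico a b, ENNReal.ofReal (w u * Real.exp (ω u x)) ≤
      ENNReal.ofReal M * ENNReal.ofReal (mass ((Ico a b).indicator fun _ => 1) ω x) := by
  have hsub : Ico a b ⊆ Ico 0 1 := Ico_subset_Ico ha hb
  have h1 : mass ((Ico a b).indicator fun _ => 1) ω x = ∫ u in Ico a b, Real.exp (ω u x) := by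
    unfold mass
    have e1 : (fun u => (Ico a b).indicator (fun _ => (1 : ℝ)) u * Real.exp (ω u x)) =
        (Ico a b).indicator (fun u => Real.exp (ω u x)) := by
      funext u
      by_cases hu : u ∈ Ico a b
      · rw [indicator_of_mem hu, indicator_of_mem hu, one_mul]
      · rw [indicator_of_notMem hu, indicator_of_notMem hu, zero_mul]
    rw [e1, setIntegral_indicator measurableSet_Ico, inter_eq_right.2 hsub]
  rw [h1, ofReal_integral_eq_lintegral_ofReal (hx.mono_set hsub)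
    (Eventually.of_forall fun u => (Real.exp_pos _).le),
    ← lintegral_const_mul' _ _ ENNReal.ofReal_ne_top]
  refine setLIntegral_mono' measurableSet_Ico fun u hu => ?_
  rw [← ENNReal.ofReal_mul hM]
  exact ENNReal.ofReal_le_ofReal (mul_le_mul_of_nonneg_right (hw u hu) (Real.exp_pos _).le)

/-- covering of the left end -/
theorem cover_left (δ : ℝ) (u : ℝ) (h0 : 0 < u) (h1 : u < δ) :
    ∃ j : ℕ, u ∈ Ico (δ / 2 ^ (j + 1)) (δ / 2 ^ j) := by
  classical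
  have hδ : 0 < δ := h0.trans h1
  have hex : ∃ j : ℕ, δ / 2 ^ (j + 1) ≤ u := by
    obtain ⟨n, hn⟩ := pow_unbounded_of_one_lt (δ / u) (one_lt_two (α := ℝ))
    refine ⟨n, ?_⟩
    rw [div_le_iff₀ (by positivity)]
    rw [div_lt_iff₀ h0] at hn
    have : (2 : ℝ) ^ n ≤ 2 ^ (n + 1) := pow_le_pow_right₀ (by norm_num) (by omega)
    nlinarith
  refine ⟨Nat.find hex, Nat.find_spec hex, ?_⟩
  rcases Nat.eq_zero_or_pos (Nat.find hex) with h | h
  · rw [h]; simpa using h1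
  · have h2 := Nat.find_min hex (m := Nat.find hex - 1) (by omega)
    rw [Nat.sub_add_cancel h] at h2
    exact not_le.1 h2

/-- covering of the right end -/
theorem cover_right (δ : ℝ) (u : ℝ) (h0 : u < 1) (h1 : 1 - δ ≤ u) :
    ∃ j : ℕ, u ∈ Ico (1 - δ / 2 ^ j) (1 - δ / 2 ^ (j + 1)) := by
  have hδ : 0 < δ := by linarith
  obtain ⟨n, h2, h3⟩ := exists_nat_pow_near_of_lt_one (x := (1 - u) / δ) (y := (1 / 2 : ℝ))
    (div_pos (by linarith) hδ) ((div_le_one hδ).2 (by linarith)) (by norm_num) (by norm_num)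
  refine ⟨n, ?_, ?_⟩
  · rw [div_le_iff₀ hδ, one_div, inv_pow] at h3
    rw [div_eq_mul_inv]
    linarith
  · rw [lt_div_iff₀ hδ, one_div, inv_pow] at h2
    rw [div_eq_mul_inv]
    linarith

/-- the moment of a piece -/
theorem piece_moment {Ω : Type} [MeasurableSpace Ω] (P : Measure Ω) (Y : Ω → ℝ)
    (hY : ∀ x, 0 ≤ Y x) (κ a b C Ks l ε : ℝ) (hκ : 0 < κ) (hC : 0 ≤ C) (hKs : 0 ≤ Ks)
    (hl : 0 < l) (hba : b ≤ a)
    (h : ∫⁻ x, ENNReal.ofReal (Y x ^ κ) ∂P ≤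
      ENNReal.ofReal (Ks * l ^ κ * (max l ε) ^ (κ * b))) :
    ∫⁻ x, (ENNReal.ofReal (C * (max l ε) ^ (-a)) * ENNReal.ofReal (Y x)) ^ κ ∂P ≤
      ENNReal.ofReal (C ^ κ * Ks * l ^ (κ * (1 - a + b))) := by
  have hm0 : 0 < max l ε := lt_of_lt_of_le hl (le_max_left _ _)
  have h1 : ∀ x, (ENNReal.ofReal (C * (max l ε) ^ (-a)) * ENNReal.ofReal (Y x)) ^ κ =
      ENNReal.ofReal ((C * (max l ε) ^ (-a)) ^ κ) * ENNReal.ofReal (Y x ^ κ) := by
    intro x
    rw [ENNReal.mul_rpow_of_nonneg _ _ hκ.le, ENNReal.ofReal_rpow_of_nonneg (by positivity) hκ.le,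
      ENNReal.ofReal_rpow_of_nonneg (hY x) hκ.le]
  simp_rw [h1]
  rw [lintegral_const_mul' _ _ ENNReal.ofReal_ne_top]
  refine (mul_le_mul_right h _).trans ?_
  rw [← ENNReal.ofReal_mul (by positivity)]
  refine ENNReal.ofReal_le_ofReal ?_
  have e1 : (C * (max l ε) ^ (-a)) ^ κ = C ^ κ * (max l ε) ^ (-a * κ) := by
    rw [Real.mul_rpow hC (by positivity), ← Real.rpow_mul hm0.le]
  have e2 : l ^ (κ * (1 - a + b)) = l ^ κ * l ^ (-a * κ + κ * b) := by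
    rw [← Real.rpow_add hl]; congr 1; ring
  have e3 : (max l ε) ^ (-a * κ) * (max l ε) ^ (κ * b) = (max l ε) ^ (-a * κ + κ * b) := by
    rw [← Real.rpow_add hm0]
  have e4 : (max l ε) ^ (-a * κ + κ * b) ≤ l ^ (-a * κ + κ * b) :=
    Real.rpow_le_rpow_of_nonpos hl (le_max_left _ _) (by nlinarith)
  calc (C * (max l ε) ^ (-a)) ^ κ * (Ks * l ^ κ * (max l ε) ^ (κ * b))
      = C ^ κ * Ks * (l ^ κ * ((max l ε) ^ (-a * κ) * (max l ε) ^ (κ * b))) := by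
        rw [e1]; ring
    _ ≤ C ^ κ * Ks * (l ^ κ * l ^ (-a * κ + κ * b)) := by
        rw [e3]; gcongr
    _ = _ := by rw [e2]

/-- the mass of the insertion near the ends is at most the sum over the pieces -/
theorem mass_le {Ω : Type} (ω : ℝ → Ω → ℝ) (x : Ω)
    (hx : IntegrableOn (fun u => Real.exp (ω u x)) (Ico 0 1)) (δ : ℝ) (hδ : 0 < δ)
    (hδ2 : δ ≤ 1 / 2) (w : ℝ → ℝ) (hw0 : ∀ u, 0 ≤ w u) (M : ℕ → ℝ) (hM : ∀ j, 0 ≤ M j)
    (hw : ∀ (j : ℕ) (u : ℝ), 0 ≤ u → u < 1 → (δ / 2 ^ (j + 1) ≤ u ∧ u ≤ 1 / 2) ∨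
      (1 / 2 ≤ u ∧ δ / 2 ^ (j + 1) ≤ 1 - u) → w u ≤ M j) :
    ENNReal.ofReal (mass ((Ico 0 δ ∪ Ico (1 - δ) 1).indicator w) ω x) ≤
      (∑' j : ℕ, ENNReal.ofReal (M j) * ENNReal.ofReal
        (mass ((Ico (δ / 2 ^ (j + 1)) (δ / 2 ^ j)).indicator fun _ => 1) ω x)) +
      ∑' j : ℕ, ENNReal.ofReal (M j) * ENNReal.ofReal
        (mass ((Ico (1 - δ / 2 ^ j) (1 - δ / 2 ^ (j + 1))).indicator fun _ => 1) ω x) := by
  obtain ⟨S, hS⟩ : ∃ S, S = Ico 0 δ ∪ Ico (1 - δ) 1 := ⟨_, rfl⟩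
  have hSm : MeasurableSet S := by rw [hS]; exact measurableSet_Ico.union measurableSet_Ico
  have hpj : ∀ j : ℕ, δ / 2 ^ j ≤ δ := fun j => div_le_self hδ.le (one_le_pow₀ (by norm_num))
  have hpj0 : ∀ j : ℕ, 0 < δ / 2 ^ j := fun j => by positivity
  have h1 : ENNReal.ofReal (mass (S.indicator w) ω x) ≤
      ∫⁻ u in Ico (0 : ℝ) 1, ENNReal.ofReal (S.indicator w u * Real.exp (ω u x)) := by
    unfold mass
    by_cases hi : Integrable (fun u => S.indicator w u * Real.exp (ω u x))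
        (volume.restrict (Ico 0 1))
    · rw [ofReal_integral_eq_lintegral_ofReal hi (Eventually.of_forall fun u =>
        mul_nonneg (indicator_nonneg (fun u _ => hw0 u) u) (Real.exp_pos _).le)]
    · rw [integral_undef hi, ENNReal.ofReal_zero]
      exact zero_le
  have h2 : ∫⁻ u in Ico (0 : ℝ) 1, ENNReal.ofReal (S.indicator w u * Real.exp (ω u x)) ≤
      ∫⁻ u in S, ENNReal.ofReal (w u * Real.exp (ω u x)) := by
    refine (setLIntegral_le_lintegral _ _).trans ?_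
    rw [← lintegral_indicator hSm]
    refine lintegral_mono fun u => ?_
    by_cases hu : u ∈ S
    · rw [indicator_of_mem hu, indicator_of_mem hu]
    · rw [indicator_of_notMem hu, indicator_of_notMem hu, zero_mul, ENNReal.ofReal_zero]
  obtain ⟨I, hI⟩ : ∃ I : ℕ → Set ℝ, I = fun j => Ico (δ / 2 ^ (j + 1)) (δ / 2 ^ j) := ⟨_, rfl⟩
  obtain ⟨I', hI'⟩ : ∃ I' : ℕ → Set ℝ,
    I' = fun j => Ico (1 - δ / 2 ^ j) (1 - δ / 2 ^ (j + 1)) := ⟨_, rfl⟩
  have hcov : S ⊆ ({0} ∪ ⋃ j, I j) ∪ ⋃ j, I' j := by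
    rw [hS]
    rintro u (hu | hu)
    · rcases hu.1.eq_or_lt with h | h
      · exact Or.inl (Or.inl h.symm)
      · obtain ⟨j, hj⟩ := cover_left δ u h hu.2
        exact Or.inl (Or.inr (mem_iUnion.2 ⟨j, by rw [hI]; exact hj⟩))
    · obtain ⟨j, hj⟩ := cover_right δ u hu.2 hu.1
      exact Or.inr (mem_iUnion.2 ⟨j, by rw [hI']; exact hj⟩)
  have h3 : ∫⁻ u in S, ENNReal.ofReal (w u * Real.exp (ω u x)) ≤
      ((∫⁻ u in ({0} : Set ℝ), ENNReal.ofReal (w u * Real.exp (ω u x))) +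
        ∑' j, ∫⁻ u in I j, ENNReal.ofReal (w u * Real.exp (ω u x))) +
        ∑' j, ∫⁻ u in I' j, ENNReal.ofReal (w u * Real.exp (ω u x)) := by
    refine (lintegral_mono_set hcov).trans ?_
    refine (lintegral_union_le _ _ _).trans (add_le_add ?_ (lintegral_iUnion_le _ _))
    exact (lintegral_union_le _ _ _).trans (add_le_add le_rfl (lintegral_iUnion_le _ _))
  have h4 : ∫⁻ u in ({0} : Set ℝ), ENNReal.ofReal (w u * Real.exp (ω u x)) = 0 := by
    rw [Measure.restrict_singleton]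
    simp
  rw [h4, zero_add] at h3
  rw [← hS]
  refine (h1.trans (h2.trans h3)).trans (add_le_add (ENNReal.tsum_le_tsum fun j => ?_)
    (ENNReal.tsum_le_tsum fun j => ?_))
  · rw [hI]
    refine piece ω x hx _ _ (hpj0 _).le ((hpj j).trans (by linarith)) w (M j) ?_ (hM j)
    intro u hu
    have h5 := hpj j
    have h6 := hpj0 (j + 1)
    exact hw j u (h6.le.trans hu.1) (by linarith [hu.2]) (Or.inl ⟨hu.1, by linarith [hu.2]⟩)
  · rw [hI']
    have h5 := hpj j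
    have h6 := hpj0 (j + 1)
    refine piece ω x hx _ _ (by linarith) (by linarith) w (M j) ?_ (hM j)
    intro u hu
    exact hw j u (by linarith [hu.1]) (by linarith [hu.2])
      (Or.inr ⟨by linarith [hu.1], by linarith [hu.2]⟩)

/-- the geometric series of the pieces -/
theorem geo (A δ g : ℝ) (hA : 0 ≤ A) (hδ : 0 < δ) (hg : 0 < g) :
    ∑' j : ℕ, ENNReal.ofReal (A * (δ / 2 ^ (j + 1)) ^ g) ≤
      ENNReal.ofReal (A * δ ^ g / (1 - (1 / 2) ^ g)) := by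
  have hρ0 : (0 : ℝ) ≤ (1 / 2) ^ g := by positivity
  have hρ1 : (1 / 2 : ℝ) ^ g < 1 := Real.rpow_lt_one (by norm_num) (by norm_num) hg
  have h1 : ∀ j : ℕ, A * (δ / 2 ^ (j + 1)) ^ g ≤ A * δ ^ g * ((1 / 2 : ℝ) ^ g) ^ j := by
    intro j
    have e1 : ((1 / 2 : ℝ) ^ g) ^ j = ((1 / 2 : ℝ) ^ j) ^ g := by
      rw [← Real.rpow_natCast, ← Real.rpow_natCast, ← Real.rpow_mul (by norm_num),
        ← Real.rpow_mul (by norm_num), mul_comm]
    rw [e1, mul_assoc, ← Real.mul_rpow hδ.le (by positivity)]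
    refine mul_le_mul_of_nonneg_left (Real.rpow_le_rpow (by positivity) ?_ hg.le) hA
    rw [one_div, inv_pow, ← div_eq_mul_inv]
    exact div_le_div_of_nonneg_left hδ.le (by positivity)
      (pow_le_pow_right₀ (by norm_num) (by omega))
  have hs : Summable fun j : ℕ => A * δ ^ g * ((1 / 2 : ℝ) ^ g) ^ j :=
    (summable_geometric_of_lt_one hρ0 hρ1).mul_left _
  calc ∑' j : ℕ, ENNReal.ofReal (A * (δ / 2 ^ (j + 1)) ^ g)
      ≤ ∑' j : ℕ, ENNReal.ofReal (A * δ ^ g * ((1 / 2 : ℝ) ^ g) ^ j) :=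
        ENNReal.tsum_le_tsum fun j => ENNReal.ofReal_le_ofReal (h1 j)
    _ = ENNReal.ofReal (∑' j : ℕ, A * δ ^ g * ((1 / 2 : ℝ) ^ g) ^ j) :=
        (ENNReal.ofReal_tsum_of_nonneg (fun j => by positivity) hs).symm
    _ = _ := by
        rw [tsum_mul_left, tsum_geometric_of_lt_one hρ0 hρ1, ← div_eq_mul_inv]

theorem INS_holds (hS : St_SMALL) (hK : St_KER) (hB : St_BDD) (hW : St_POSW) : St_INS := by
  intro c r μ Ω _ P ω hF q hq η hη
  obtain ⟨e, κ, a, b, he0, he1, hκ0, hκ1, ha, ha0, hb, hba, hab⟩ := params μ q hF.mu_pos hq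
  have hprob := hF.prob
  have hbd := hB c r μ hF.adm hF.mu_pos (hF.field.frequently.mono fun ε h =>
    ⟨Ω ε, inferInstance, P ε, inferInstance, ω ε, h⟩)
  obtain ⟨hk1, -⟩ := hK c r μ hF.adm hF.mu_pos hbd
  obtain ⟨K, ε₀, hK0, hε0, hε2, hker⟩ := hk1 e he0
  obtain ⟨Ks, hKs, hsm⟩ := hS c r μ Ω P ω hF κ e hκ0 hκ1 he0 he1
  obtain ⟨g, hg⟩ : ∃ g, g = κ * (1 - a + b) := ⟨_, rfl⟩
  have hg0 : 0 < g := by rw [hg]; exact mul_pos hκ0 (by linarith)
  obtain ⟨C, hC⟩ : ∃ C, C = Real.exp (|q| * K) * 2 ^ a := ⟨_, rfl⟩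
  have hC0 : 0 < C := by rw [hC]; positivity
  obtain ⟨A, hA⟩ : ∃ A, A = C ^ κ * Ks := ⟨_, rfl⟩
  have hA0 : 0 < A := by rw [hA]; positivity
  have hρ1 : (1 / 2 : ℝ) ^ g < 1 := Real.rpow_lt_one (by norm_num) (by norm_num) hg0
  obtain ⟨ρ, hρ⟩ : ∃ ρ, ρ = 1 - (1 / 2 : ℝ) ^ g := ⟨_, rfl⟩
  have hρ0 : 0 < ρ := by rw [hρ]; linarith
  obtain ⟨T, hT⟩ : ∃ T, T = η ^ κ * η * ρ / (2 * A) := ⟨_, rfl⟩
  have hT0 : 0 < T := by rw [hT]; positivity
  refine ⟨min (1 / 2) (T ^ (1 / g)), lt_min (by norm_num) (by positivity), ?_⟩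
  intro δ hδ hδ0
  have hδ2 : δ ≤ 1 / 2 := hδ0.trans (min_le_left _ _)
  have hδT : δ ^ g ≤ T := by
    have h1 : δ ^ g ≤ (T ^ (1 / g)) ^ g :=
      Real.rpow_le_rpow hδ.le (hδ0.trans (min_le_right _ _)) hg0.le
    rwa [← Real.rpow_mul hT0.le, one_div, inv_mul_cancel₀ hg0.ne', Real.rpow_one] at h1
  have hev : ∀ᶠ ε : ℝ in 𝓝[>] 0, 0 < ε ∧ ε ≤ ε₀ :=
    (eventually_mem_nhdsWithin.and (nhdsWithin_le_nhds (Iic_mem_nhds hε0))).mono
      fun ε h => ⟨h.1, h.2⟩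
  filter_upwards [hev, hF.field, hsm] with ε hε hfield hsmall
  obtain ⟨hε1, hε3⟩ := hε
  obtain ⟨w1, w2, -, -⟩ := hW c r μ ε hF.adm hF.mu_pos hε1 (by linarith) (Ω ε) (P ε) (ω ε) hfield
  obtain ⟨l, hl⟩ : ∃ l : ℕ → ℝ, l = fun j => δ / 2 ^ (j + 1) := ⟨_, rfl⟩
  have hlj : ∀ j, l j = δ / 2 ^ (j + 1) := fun j => by rw [hl]
  have hl0 : ∀ j, 0 < l j := fun j => by rw [hlj]; positivity
  have hl2 : ∀ j, l j ≤ 1 / 2 := fun j => by
    rw [hlj]; exact (div_le_self hδ.le (one_le_pow₀ (by norm_num))).trans hδ2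
  have hld : ∀ j, δ / 2 ^ j - δ / 2 ^ (j + 1) = l j := fun j => by
    rw [hlj, pow_succ]; field_simp; ring
  obtain ⟨M, hM⟩ : ∃ M : ℕ → ℝ, M = fun j => C * max (l j) ε ^ (-a) := ⟨_, rfl⟩
  have hMj : ∀ j, M j = C * max (l j) ε ^ (-a) := fun j => by rw [hM]
  have hM0 : ∀ j, 0 ≤ M j := fun j => by rw [hMj]; positivity
  obtain ⟨f1, hf1⟩ : ∃ f1 : ℕ → Ω ε → ℝ≥0∞, f1 = fun j x => ENNReal.ofReal (M j) *
    ENNReal.ofReal (mass ((Ico (δ / 2 ^ (j + 1)) (δ / 2 ^ j)).indicator fun _ => 1) (ω ε) x) :=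
    ⟨_, rfl⟩
  obtain ⟨f2, hf2⟩ : ∃ f2 : ℕ → Ω ε → ℝ≥0∞, f2 = fun j x => ENNReal.ofReal (M j) *
    ENNReal.ofReal (mass ((Ico (1 - δ / 2 ^ j) (1 - δ / 2 ^ (j + 1))).indicator fun _ => 1)
      (ω ε) x) := ⟨_, rfl⟩
  have hmeas : ∀ s t : ℝ, Measurable (mass ((Ico s t).indicator fun _ => 1) (ω ε)) :=
    fun s t => w2 _ (measurable_const.indicator measurableSet_Ico)
  have hf1m : ∀ j, Measurable (f1 j) := fun j => by
    rw [hf1]; exact (ENNReal.measurable_ofReal.comp (hmeas _ _)).const_mul _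
  have hf2m : ∀ j, Measurable (f2 j) := fun j => by
    rw [hf2]; exact (ENNReal.measurable_ofReal.comp (hmeas _ _)).const_mul _
  obtain ⟨G, hG⟩ : ∃ G : Ω ε → ℝ≥0∞, G = fun x => (∑' j, f1 j x ^ κ) + ∑' j, f2 j x ^ κ :=
    ⟨_, rfl⟩
  have hG1m : Measurable fun x => ∑' j, f1 j x ^ κ :=
    Measurable.ennreal_tsum fun j => (hf1m j).pow_const _
  have hG2m : Measurable fun x => ∑' j, f2 j x ^ κ :=
    Measurable.ennreal_tsum fun j => (hf2m j).pow_const _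
  have hGm : Measurable G := by rw [hG]; exact hG1m.add hG2m
  -- the pieces
  have hmom : ∀ (j : ℕ) (s t : ℝ), 0 ≤ s → s < t → t ≤ 1 → t - s = l j →
      ∫⁻ x, (ENNReal.ofReal (M j) *
        ENNReal.ofReal (mass ((Ico s t).indicator fun _ => 1) (ω ε) x)) ^ κ ∂(P ε) ≤
        ENNReal.ofReal (A * (δ / 2 ^ (j + 1)) ^ g) := by
    intro j s t h1 h2 h3 h4
    have h5 := hsmall s t h1 h2 h3 (by rw [h4]; exact hl2 j)
    rw [h4] at h5
    have h6 := piece_moment (P ε) (mass ((Ico s t).indicator fun _ => 1) (ω ε))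
      (fun x => mass_nonneg _ (fun u => indicator_nonneg (fun _ _ => zero_le_one) u) _ x)
      κ a b C Ks (l j) ε hκ0 hC0.le hKs.le (hl0 j) hba (by
        refine h5.trans (le_of_eq ?_)
        rw [hb]
        congr 3
        ring)
    rw [hMj, hA, hg, ← hlj]
    exact h6
  have hGint : ∫⁻ x, G x ∂(P ε) ≤ ENNReal.ofReal (2 * (A * δ ^ g / ρ)) := by
    rw [hG, lintegral_add_left hG1m, lintegral_tsum fun j => ((hf1m j).pow_const _).aemeasurable,
      lintegral_tsum fun j => ((hf2m j).pow_const _).aemeasurable, two_mul,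
      ENNReal.ofReal_add (by positivity) (by positivity)]
    have hgeo := geo A δ g hA0.le hδ hg0
    rw [← hρ] at hgeo
    have hpj : ∀ j : ℕ, δ / 2 ^ j ≤ δ := fun j => div_le_self hδ.le (one_le_pow₀ (by norm_num))
    refine add_le_add ((ENNReal.tsum_le_tsum fun j => ?_).trans hgeo)
      ((ENNReal.tsum_le_tsum fun j => ?_).trans hgeo)
    · rw [hf1]
      have h1 := hld j
      have h2 := hl0 j
      exact hmom j _ _ (by positivity) (by linarith) (by linarith [hpj j]) h1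
    · rw [hf2]
      have h1 := hld j
      have h2 := hl0 j
      have h3 : 0 < δ / 2 ^ (j + 1) := by positivity
      exact hmom j _ _ (by linarith [hpj j]) (by linarith) (by linarith) (by linarith)
  have hae : ∀ᵐ x ∂(P ε), η ≤ mass ((Ico 0 δ ∪ Ico (1 - δ) 1).indicator
      fun u => Real.exp (-(q * cv r μ ε (dst c u 0)))) (ω ε) x → ENNReal.ofReal (η ^ κ) ≤ G x := by
    filter_upwards [w1] with x hx hηx
    have h1 := mass_le (ω ε) x hx δ hδ hδ2 (fun u => Real.exp (-(q * cv r μ ε (dst c u 0))))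
      (fun u => (Real.exp_pos _).le) M hM0 (by
        intro j u hu0 hu1 hu
        rw [← hlj] at hu
        rw [hMj, hC]
        exact wb c r μ e K ε₀ q a he1 hK0 hε2 ha ha0 hker ε hε1 hε3 (l j) (hl0 j) (hl2 j) u
          hu0 hu1 hu)
    have h2 : ENNReal.ofReal η ≤ (∑' j, f1 j x) + ∑' j, f2 j x := by
      rw [hf1, hf2]
      exact (ENNReal.ofReal_le_ofReal hηx).trans h1
    rw [← ENNReal.ofReal_rpow_of_nonneg hη.le hκ0.le, hG]
    refine (ENNReal.rpow_le_rpow h2 hκ0.le).trans ?_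
    exact (ENNReal.rpow_add_le_add_rpow _ _ hκ0.le hκ1.le).trans
      (add_le_add (rpow_tsum_le hκ0 hκ1.le _) (rpow_tsum_le hκ0 hκ1.le _))
  have hηκ : 0 < η ^ κ := by positivity
  calc (P ε) {x | η ≤ mass ((Ico 0 δ ∪ Ico (1 - δ) 1).indicator
        fun u => Real.exp (-(q * cv r μ ε (dst c u 0)))) (ω ε) x}
      ≤ (P ε) {x | ENNReal.ofReal (η ^ κ) ≤ G x} := measure_mono_ae hae
    _ ≤ (∫⁻ x, G x ∂(P ε)) / ENNReal.ofReal (η ^ κ) :=
        meas_ge_le_lintegral_div hGm.aemeasurable (ENNReal.ofReal_pos.2 hηκ).ne'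
          ENNReal.ofReal_ne_top
    _ ≤ ENNReal.ofReal (2 * (A * δ ^ g / ρ)) / ENNReal.ofReal (η ^ κ) := by gcongr
    _ = ENNReal.ofReal (2 * (A * δ ^ g / ρ) / η ^ κ) := (ENNReal.ofReal_div_of_pos hηκ).symm
    _ ≤ ENNReal.ofReal η := by
        refine ENNReal.ofReal_le_ofReal ?_
        rw [div_le_iff₀ hηκ]
        have h1 : A * δ ^ g / ρ ≤ A * T / ρ := by gcongr
        have h2 : 2 * (A * T / ρ) = η * η ^ κ := by
          rw [hT]; field_simp
        linarith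

end Pool.Agent.L5helper70.CG
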